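import Pool.Agent.Work.MP_e17eac_co.DL.Fin

/-!
# Dense point sets with many halving lines: bisectors
-/

set_option autoImplicit false

namespace Pool.Agent.Work.MP_e17eac_co.DL

open Finset Filter Topology Pool.Agent.Work.MP_e17eac_co.HL Pool.Agent.Work.MP_e17eac_co.NC

lemma gp_of {P : Finset (ℝ × ℝ)} (h : GP P) : GeneralPosition P := by
  intro a ha b hb r hr hab har hbr hcol
  exact h a ha b hb r hr hab har hbr (side_eq_zero_of_collinear hcol)

/-- In a set of `2 k + 2` points in general position the `k`-edges span different bisectors. -/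
lemma kE_le_bisectors {P : Finset (ℝ × ℝ)} (h : GP P) {k : ℕ} (hk : P.card = 2 * k + 2) :
    (kE P k).card ≤ (bisectors P).ncard := by
  classical
  set F : Finset (ℝ × ℝ) → AffineSubspace ℝ (ℝ × ℝ) :=
    fun s => affineSpan ℝ (s : Set (ℝ × ℝ)) with hF
  have hpair : ∀ p q : ℝ × ℝ, F {p, q} = affineSpan ℝ {p, q} := by
    intro p q
    simp [hF]
  have hmem : ∀ p q x : ℝ × ℝ, p ∈ P → q ∈ P → p ≠ q → x ∈ P → x ∈ affineSpan ℝ {p, q} →
      x = p ∨ x = q := by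
    intro p q x hp hq hpq hx hxs
    by_contra hcon
    push Not at hcon
    have hcol : Collinear ℝ {x, p, q} := collinear_insert_of_mem_affineSpan_pair hxs
    exact h x hx p hp q hq hcon.1 hcon.2 hpq (side_eq_zero_of_collinear hcol)
  have hinj : Set.InjOn F (kE P k : Set (Finset (ℝ × ℝ))) := by
    intro s hs s' hs' hss
    have h1 := Finset.mem_coe.mp hs
    have h2 := Finset.mem_coe.mp hs'
    unfold kE at h1 h2
    rw [Finset.mem_filter] at h1 h2
    obtain ⟨_, p, q, rfl, hp, hq, hpq, _⟩ := h1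
    obtain ⟨_, p', q', rfl, hp', hq', hpq', _⟩ := h2
    rw [hpair, hpair] at hss
    have e1 : p' ∈ affineSpan ℝ {p, q} := by
      rw [hss]; exact left_mem_affineSpan_pair ℝ _ _
    have e2 : q' ∈ affineSpan ℝ {p, q} := by
      rw [hss]; exact right_mem_affineSpan_pair ℝ _ _
    rcases hmem p q p' hp hq hpq hp' e1 with h4 | h4 <;>
      rcases hmem p q q' hp hq hpq hq' e2 with h5 | h5
    · exact absurd (h4.trans h5.symm) hpq'
    · rw [h4, h5]
    · rw [h4, h5]; exact Finset.pair_comm _ _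
    · exact absurd (h4.trans h5.symm) hpq'
  calc (kE P k).card = ((kE P k).image F).card := (Finset.card_image_of_injOn hinj).symm
    _ = ((((kE P k).image F : Finset _)) : Set (AffineSubspace ℝ (ℝ × ℝ))).ncard :=
      (Set.ncard_coe_finset _).symm
    _ ≤ (bisectors P).ncard := by
      apply Set.ncard_le_ncard _ (bisectors_finite P)
      intro l hl
      obtain ⟨s, hs, rfl⟩ := Finset.mem_image.mp (Finset.mem_coe.mp hl)
      unfold kE at hs
      rw [Finset.mem_filter] at hs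
      obtain ⟨_, p, q, rfl, hp, hq, hpq, h6, h7⟩ := hs
      refine ⟨p, q, ⟨hp, hq, hpq, ?_, ?_⟩, hpair p q⟩
      · rw [ncard_eq_filter, h6]; omega
      · rw [ncard_eq_filter]; omega

/-- The final statement for bisectors. -/
def StBis : Prop :=
  ∃ C : ℝ, 0 < C ∧ ∃ n₀ : ℕ, ∀ n : ℕ, n₀ ≤ n → Even n →
    ∃ P : Finset (ℝ × ℝ), P.card = n ∧ GeneralPosition P ∧
      (∀ p ∈ P, ∀ q ∈ P, p ≠ q → 1 / 2 ≤ Real.sqrt ((p.1 - q.1) ^ 2 + (p.2 - q.2) ^ 2) ∧
        Real.sqrt ((p.1 - q.1) ^ 2 + (p.2 - q.2) ^ 2) ≤ 23 * Real.sqrt n) ∧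
      (bisectors P).Finite ∧
      (n : ℝ) * Real.exp (Real.log n / Real.exp (C * Real.sqrt (Real.log (Real.log n)))) ≤
        ((bisectors P).ncard : ℝ)

theorem stBis (h : StMain) : StBis := by
  obtain ⟨C, hC, n₀, hn₀⟩ := h
  refine ⟨C, hC, max n₀ 2, ?_⟩
  intro n hn hev
  obtain ⟨P, hP1, hP2, hP3, hP4⟩ := hn₀ n ((le_max_left _ _).trans hn) hev n le_rfl
  have hn2 : 2 ≤ n := (le_max_right _ _).trans hn
  refine ⟨P, hP1, gp_of hP2, hP3, bisectors_finite P, hP4.trans ?_⟩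
  obtain ⟨l, hl⟩ := hev
  exact_mod_cast kE_le_bisectors hP2 (k := n / 2 - 1) (by rw [hP1]; omega)

/-- The final statement for bisectors, every exponent below one. -/
def StBisEps : Prop :=
  ∀ ε : ℝ, 0 < ε → ∃ n₀ : ℕ, ∀ n : ℕ, n₀ ≤ n → Even n →
    ∃ P : Finset (ℝ × ℝ), P.card = n ∧ GeneralPosition P ∧
      (∀ p ∈ P, ∀ q ∈ P, p ≠ q → 1 / 2 ≤ Real.sqrt ((p.1 - q.1) ^ 2 + (p.2 - q.2) ^ 2) ∧
        Real.sqrt ((p.1 - q.1) ^ 2 + (p.2 - q.2) ^ 2) ≤ 23 * Real.sqrt n) ∧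
      (bisectors P).Finite ∧
      (n : ℝ) * Real.exp (Real.log n ^ (1 - ε)) ≤ ((bisectors P).ncard : ℝ)

theorem stBisEps (h : StEps) : StBisEps := by
  intro ε hε
  obtain ⟨n₀, hn₀⟩ := h ε hε
  refine ⟨max n₀ 2, ?_⟩
  intro n hn hev
  obtain ⟨P, hP1, hP2, hP3, hP4⟩ := hn₀ n ((le_max_left _ _).trans hn) hev n le_rfl
  have hn2 : 2 ≤ n := (le_max_right _ _).trans hn
  refine ⟨P, hP1, gp_of hP2, hP3, bisectors_finite P, hP4.trans ?_⟩
  obtain ⟨l, hl⟩ := hev
  exact_mod_cast kE_le_bisectors hP2 (k := n / 2 - 1) (by rw [hP1]; omega)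

end Pool.Agent.Work.MP_e17eac_co.DL
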