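import Pool.Agent.Work.MP_e17eac_co.DL.Dist
import Pool.Agent.Work.MP_e17eac_co.NCReal

/-!
# Dense point sets with many halving lines: balance
-/

set_option autoImplicit false

namespace Pool.Agent.Work.MP_e17eac_co.DL

open Finset Filter Topology Pool.Agent.Work.MP_e17eac_co.HL Pool.Agent.Work.MP_e17eac_co.NC

lemma sg_mul' (a c : ℝ) : sg (a * c) = sg a * sg c := by
  rcases lt_trichotomy a 0 with h | h | h
  · have h1 : a * c = (-a) * (-c) := by ring
    rw [h1, sg_mul_pos (by linarith), sg_neg, sg_of_neg h]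
    ring
  · subst h; simp
  · rw [sg_mul_pos h, sg_of_pos h]; ring

lemma sg_sr (j : ℕ) : sg (sr j) = (-1) ^ j := by
  unfold sr
  rcases Nat.even_or_odd j with h | h
  · rw [h.neg_one_pow, h.neg_one_pow, sg_of_pos one_pos]
  · rw [h.neg_one_pow, h.neg_one_pow, sg_of_neg (by norm_num)]

lemma sg_add_small {a c : ℝ} (h : |c| < |a|) : sg (a + c) = sg a := by
  rw [abs_lt] at h
  rcases lt_or_ge 0 a with h1 | h1
  · rw [abs_of_pos h1] at h
    rw [sg_of_pos h1, sg_of_pos (by linarith)]
  · rw [abs_of_nonpos h1] at h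
    have h2 : a < 0 := by linarith
    rw [sg_of_neg h2, sg_of_neg (by linarith)]

/-- The side function of three points of one ray, divided by `ε`. -/
noncomputable def cc (p : Pat) (b c : ℕ) (e : p.E) (k : p.K) : ℝ :=
  ((px p b c (p.tgt e) : ℝ) - px p b c (p.src e)) * (p.δ k - p.δ (p.src e)) -
    (p.δ (p.tgt e) - p.δ (p.src e)) * ((px p b c k : ℝ) - px p b c (p.src e))

lemma sg_cc {p : Pat} (hp : p.Good) (b c : ℕ) (e : p.E) (k : p.K) :
    sg (cc p b c e k) = - sg ((p.κ (p.src e) : ℝ) - p.κ (p.tgt e)) * sg (p.g e k) := by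
  by_cases hks : k = p.src e
  · subst hks
    rw [Pat.g_src hp e]
    unfold cc
    simp
  by_cases hkt : k = p.tgt e
  · subst hkt
    rw [Pat.g_tgt e]
    unfold cc
    have : ((px p b c (p.tgt e) : ℝ) - px p b c (p.src e)) * (p.δ (p.tgt e) - p.δ (p.src e)) -
      (p.δ (p.tgt e) - p.δ (p.src e)) * ((px p b c (p.tgt e) : ℝ) - px p b c (p.src e)) = 0 := by
      ring
    rw [this]
    simp
  have hm := hp.margin e k hks hkt
  have ha := Pat.one_le_abs_κ_sub hp e
  have hne := Pat.κ_sub_ne hp e
  set m : ℝ := (Fintype.card p.K : ℝ) with hmdef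
  set a : ℝ := (p.κ (p.src e) : ℝ) - p.κ (p.tgt e) with hadef
  have hX : (1 : ℝ) ≤ p.X := by exact_mod_cast hp.X_pos
  have hg : a * p.g e k = a * (p.δ k - p.δ (p.tgt e)) -
      (p.δ (p.src e) - p.δ (p.tgt e)) * ((p.κ k : ℝ) - p.κ (p.tgt e)) := by
    unfold Pat.g Pat.ξ
    rw [← hadef]
    field_simp
  have hcc : cc p b c e k = -(9 * m * p.X * (a * p.g e k) +
      (((idx p (p.src e) : ℝ) - idx p (p.tgt e)) * (p.δ k - p.δ (p.tgt e)) -
      (p.δ (p.src e) - p.δ (p.tgt e)) * ((idx p k : ℝ) - idx p (p.tgt e)))) := by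
    rw [hg]
    unfold cc px
    push_cast
    ring
  have hi : ∀ l : p.K, 0 ≤ (idx p l : ℝ) ∧ (idx p l : ℝ) < m := by
    intro l
    exact ⟨by positivity, by rw [hmdef]; exact_mod_cast idx_lt p l⟩
  have hm0 : 0 < m := lt_of_le_of_lt (hi k).1 (hi k).2
  have herr : |(((idx p (p.src e) : ℝ) - idx p (p.tgt e)) * (p.δ k - p.δ (p.tgt e)) -
      (p.δ (p.src e) - p.δ (p.tgt e)) * ((idx p k : ℝ) - idx p (p.tgt e)))| ≤ 4 * m := by
    have d1 := abs_le.mp (hp.δ_le k)
    have d2 := abs_le.mp (hp.δ_le (p.src e))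
    have d3 := abs_le.mp (hp.δ_le (p.tgt e))
    have i1 := hi k
    have i2 := hi (p.src e)
    have i3 := hi (p.tgt e)
    have h1 : |((idx p (p.src e) : ℝ) - idx p (p.tgt e)) * (p.δ k - p.δ (p.tgt e))| ≤ m * 2 := by
      rw [abs_mul]
      apply mul_le_mul _ _ (abs_nonneg _) hm0.le
      · rw [abs_le]; constructor <;> linarith
      · rw [abs_le]; constructor <;> linarith
    have h2 : |(p.δ (p.src e) - p.δ (p.tgt e)) * ((idx p k : ℝ) - idx p (p.tgt e))| ≤ 2 * m := by
      rw [abs_mul]
      apply mul_le_mul _ _ (abs_nonneg _) (by norm_num)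
      · rw [abs_le]; constructor <;> linarith
      · rw [abs_le]; constructor <;> linarith
    have h3 := abs_sub (((idx p (p.src e) : ℝ) - idx p (p.tgt e)) * (p.δ k - p.δ (p.tgt e)))
      ((p.δ (p.src e) - p.δ (p.tgt e)) * ((idx p k : ℝ) - idx p (p.tgt e)))
    linarith
  have hbig : 4 * m < |9 * m * p.X * (a * p.g e k)| := by
    rw [abs_mul, abs_mul a, abs_of_pos (by positivity)]
    have h1 : 1 * |p.g e k| ≤ |a| * |p.g e k| := mul_le_mul_of_nonneg_right ha (abs_nonneg _)
    have h2 : 9 * m * p.X * (1 * |p.g e k|) ≤ 9 * m * p.X * (|a| * |p.g e k|) :=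
      mul_le_mul_of_nonneg_left h1 (by positivity)
    have h3 : 9 * m * (1 / 2) ≤ 9 * m * (p.X * |p.g e k|) :=
      mul_le_mul_of_nonneg_left (by linarith) (by positivity)
    nlinarith
  rw [hcc, sg_neg, sg_add_small (lt_of_le_of_lt herr hbig), sg_mul_pos (by positivity), sg_mul']
  ring

theorem stBal : StBal := by
  classical
  intro p r b f d W hp hr hb hN
  refine eventually_all.mpr fun j => eventually_all.mpr fun e => ?_
  have hN0 : (0 : ℝ) < ((r * b : ℕ) : ℝ) := by
    have := Nat.mul_pos hr hb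
    exact_mod_cast this
  have hb1 : (1 : ℝ) ≤ b := by exact_mod_cast hb
  have hx1 : ∀ (j : Fin (r * b)) (k : p.K), (b : ℝ) ≤ (px p b ((j : ℕ) % r) k : ℝ) := by
    intro j k
    exact_mod_cast px_ge (b := b) hp ((j : ℕ) % r) k
  -- the difference of the abscissas of the ends
  set dx : ℝ := (px p b ((j : ℕ) % r) (p.tgt e) : ℝ) - px p b ((j : ℕ) % r) (p.src e) with hdx
  have hdx0 : dx ≠ 0 := by
    rw [hdx, sub_ne_zero]
    intro h
    have h2 : px p b ((j : ℕ) % r) (p.tgt e) = px p b ((j : ℕ) % r) (p.src e) := by exact_mod_cast h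
    exact Pat.src_ne_tgt hp e e (px_eq h2).1.symm
  set A : ℤ := (-1) ^ (j : ℕ) * sg dx with hA
  have hA0 : A ≠ 0 := by
    rw [hA]
    apply mul_ne_zero (pow_ne_zero _ (by norm_num))
    intro h
    exact hdx0 (sg_eq_zero.mp h)
  let val : Ix p r b f d → ℤ := fun i => match i with
    | Sum.inl (j', k) => (if j' = j then
        - sg ((p.κ (p.src e) : ℝ) - p.κ (p.tgt e)) * sg (p.g e k) else 0) +
        A * ((-1) ^ (j' : ℕ) * (if j < j' then 1 else if j' < j then -1 else 0))
    | Sum.inr (Sum.inl (_, true)) => -A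
    | Sum.inr (Sum.inl (_, false)) => A
    | Sum.inr (Sum.inr _) => A
  have hval0 : ∀ i, i ≠ Sum.inl (j, p.src e) → i ≠ Sum.inl (j, p.tgt e) → val i ≠ 0 := by
    rintro (⟨j', k⟩ | (⟨q, s⟩ | q)) h1 h2
    · by_cases hj : j' = j
      · subst hj
        have h3 : k ≠ p.src e := fun h => h1 (by rw [h])
        have h4 : k ≠ p.tgt e := fun h => h2 (by rw [h])
        simp only [val, if_true, lt_irrefl, if_false, mul_zero, add_zero]
        apply mul_ne_zero
        · rw [neg_ne_zero]
          intro h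
          exact Pat.κ_sub_ne hp e (sg_eq_zero.mp h)
        · intro h
          exact Pat.g_ne_zero p hp e h3 h4 (sg_eq_zero.mp h)
      · simp only [val, if_neg hj, zero_add]
        apply mul_ne_zero hA0
        apply mul_ne_zero (pow_ne_zero _ (by norm_num))
        rcases lt_or_gt_of_ne hj with h | h
        · rw [if_neg (not_lt.mpr h.le), if_pos h]; norm_num
        · rw [if_pos h]; norm_num
    · cases s
      · exact hA0
      · exact neg_ne_zero.mpr hA0
    · exact hA0
  have hcont : ∀ i : Ix p r b f d, Continuous fun ε : ℝ =>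
      side (zz p r b f d W ε (Sum.inl (j, p.src e))) (zz p r b f d W ε (Sum.inl (j, p.tgt e)))
        (zz p r b f d W ε i) := by
    rintro (⟨j', k⟩ | (⟨q, s⟩ | q))
    · unfold side
      simp only [zz]
      fun_prop
    · cases s
      · unfold side
        simp only [zz]
        fun_prop
      · unfold side
        simp only [zz]
        fun_prop
    · unfold side
      simp only [zz]
      fun_prop
  have hev : ∀ i, ∀ᶠ ε in 𝓝[>] (0 : ℝ),
      sg (side (zz p r b f d W ε (Sum.inl (j, p.src e))) (zz p r b f d W ε (Sum.inl (j, p.tgt e)))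
        (zz p r b f d W ε i)) = val i := by
    have hlim : ∀ i, ∀ v : ℝ, side (zz p r b f d W 0 (Sum.inl (j, p.src e)))
        (zz p r b f d W 0 (Sum.inl (j, p.tgt e))) (zz p r b f d W 0 i) = v → v ≠ 0 → sg v = val i →
        ∀ᶠ ε in 𝓝[>] (0 : ℝ),
        sg (side (zz p r b f d W ε (Sum.inl (j, p.src e))) (zz p r b f d W ε (Sum.inl (j, p.tgt e)))
          (zz p r b f d W ε i)) = val i := by
      intro i v h1 h2 h3
      rw [← h3]
      refine eventually_sg_eq ?_ h2
      rw [← h1]
      exact (hcont i).continuousAt.mono_left nhdsWithin_le_nhds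
    rintro (⟨j', k⟩ | (⟨q, s⟩ | q))
    · by_cases hj : j' = j
      · subst hj
        filter_upwards [self_mem_nhdsWithin] with ε hε
        have h3 : side (zz p r b f d W ε (Sum.inl (j', p.src e)))
            (zz p r b f d W ε (Sum.inl (j', p.tgt e))) (zz p r b f d W ε (Sum.inl (j', k))) =
            ε * cc p b ((j' : ℕ) % r) e k := by
          unfold side cc
          simp only [zz]
          rcases sr_or (j' : ℕ) with h | h
          · rw [h]; ring
          · rw [h]; ring
        rw [h3, sg_mul_pos hε, sg_cc hp]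
        simp [val]
      · refine hlim _ (sr j * sr j' * dx * (px p b ((j' : ℕ) % r) k : ℝ) *
          ((((j' : ℕ) : ℝ) - (j : ℕ)) / ((r * b : ℕ) : ℝ))) ?_ ?_ ?_
        · unfold side
          simp only [zz, hdx]
          rcases sr_or (j' : ℕ) with h | h <;> rcases sr_or (j : ℕ) with h' | h' <;>
            rw [h, h'] <;> ring
        · have hpx := hx1 j' k
          have hjj : (((j' : ℕ) : ℝ) - (j : ℕ)) ≠ 0 := by
            rw [sub_ne_zero]
            intro h
            exact hj (Fin.ext (by exact_mod_cast h))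
          refine mul_ne_zero (mul_ne_zero (mul_ne_zero (mul_ne_zero ?_ ?_) hdx0) (by linarith))
            (div_ne_zero hjj hN0.ne')
          · rcases sr_or (j : ℕ) with h | h <;> rw [h] <;> norm_num
          · rcases sr_or (j' : ℕ) with h | h <;> rw [h] <;> norm_num
        · have hpx := hx1 j' k
          have h4 : sr j * sr j' * dx * (px p b ((j' : ℕ) % r) k : ℝ) *
              ((((j' : ℕ) : ℝ) - (j : ℕ)) / ((r * b : ℕ) : ℝ)) =
              ((px p b ((j' : ℕ) % r) k : ℝ) / ((r * b : ℕ) : ℝ)) *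
                ((sr j * dx) * (sr j' * (((j' : ℕ) : ℝ) - (j : ℕ)))) := by ring
          have h5 : sg (((j' : ℕ) : ℝ) - (j : ℕ)) =
              (if j < j' then 1 else if j' < j then -1 else 0) := by
            rcases lt_or_gt_of_ne hj with h | h
            · rw [if_neg (not_lt.mpr h.le), if_pos h, sg_of_neg]
              have : ((j' : ℕ) : ℝ) < (j : ℕ) := by exact_mod_cast (Fin.lt_def.mp h)
              linarith
            · rw [if_pos h, sg_of_pos]
              have : ((j : ℕ) : ℝ) < (j' : ℕ) := by exact_mod_cast (Fin.lt_def.mp h)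
              linarith
          rw [h4, sg_mul_pos (div_pos (by linarith) hN0), sg_mul', sg_mul', sg_mul', sg_sr, sg_sr,
            h5]
          simp only [val, if_neg hj, zero_add, hA]
    · cases s
      · refine hlim _ (sr j * dx * ((((((q : ℕ) / W : ℕ) : ℝ) + 2)) +
          (j : ℕ) / ((r * b : ℕ) : ℝ) * ((((q : ℕ) % W : ℕ) : ℝ) + 1))) ?_ ?_ ?_
        · unfold side
          simp only [zz, hdx]
          rcases sr_or (j : ℕ) with h' | h' <;>
            rw [h'] <;> ring
        · refine mul_ne_zero (mul_ne_zero ?_ hdx0) (by positivity)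
          rcases sr_or (j : ℕ) with h | h <;> rw [h] <;> norm_num
        · rw [mul_comm, sg_mul_pos (by positivity), sg_mul', sg_sr]
      · refine hlim _ (-(sr j * dx * ((((((q : ℕ) / W : ℕ) : ℝ) + 2)) +
          (j : ℕ) / ((r * b : ℕ) : ℝ) * ((((q : ℕ) % W : ℕ) : ℝ) + 1)))) ?_ ?_ ?_
        · unfold side
          simp only [zz, hdx]
          rcases sr_or (j : ℕ) with h' | h' <;>
            rw [h'] <;> ring
        · rw [neg_ne_zero]
          refine mul_ne_zero (mul_ne_zero ?_ hdx0) (by positivity)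
          rcases sr_or (j : ℕ) with h | h <;> rw [h] <;> norm_num
        · rw [sg_neg, mul_comm, sg_mul_pos (by positivity), sg_mul', sg_sr]
    · refine hlim _ (sr j * dx * ((((((q : ℕ) / W : ℕ) : ℝ) + (W + 2))) +
        (j : ℕ) / ((r * b : ℕ) : ℝ) * ((((q : ℕ) % W : ℕ) : ℝ) + 1))) ?_ ?_ ?_
      · unfold side
        simp only [zz, hdx]
        rcases sr_or (j : ℕ) with h' | h' <;>
          rw [h'] <;> ring
      · refine mul_ne_zero (mul_ne_zero ?_ hdx0) (by positivity)
        rcases sr_or (j : ℕ) with h | h <;> rw [h] <;> norm_num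
      · rw [mul_comm, sg_mul_pos (by positivity), sg_mul', sg_sr]
  have hA1 : A = 1 ∨ A = -1 := by
    rw [hA]
    rcases neg_one_pow_eq_or ℤ (j : ℕ) with h | h <;> rcases lt_or_gt_of_ne hdx0 with h' | h'
    · rw [h, sg_of_neg h']; right; norm_num
    · rw [h, sg_of_pos h']; left; norm_num
    · rw [h, sg_of_neg h']; left; norm_num
    · rw [h, sg_of_pos h']; right; norm_num
  filter_upwards [eventually_all.mpr hev] with ε hε
  refine ⟨?_, ?_⟩
  · intro i h1 h2 h3
    have h4 := hε i
    rw [h3, sg_zero] at h4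
    exact hval0 i h1 h2 h4.symm
  · rw [Finset.sum_congr rfl fun i _ => hε i]
    rw [Fintype.sum_sum_type, Fintype.sum_sum_type, Fintype.sum_prod_type, Fintype.sum_prod_type]
    have h0 : ∑ q : Fin d, val (Sum.inr (Sum.inr q)) = A * d := by
      simp [val, mul_comm]
    have h1 : ∑ q : Fin f, ∑ s : Bool, val (Sum.inr (Sum.inl (q, s))) = 0 := by
      apply Finset.sum_eq_zero
      intro q _
      simp [val]
    have h2 : ∑ j' : Fin (r * b), ∑ k : p.K, val (Sum.inl (j', k)) = 0 := by
      simp only [val]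
      rw [Finset.sum_congr rfl fun j' _ => Finset.sum_add_distrib]
      rw [Finset.sum_add_distrib]
      have h3 : ∑ j' : Fin (r * b), ∑ k : p.K, (if j' = j then
          - sg ((p.κ (p.src e) : ℝ) - p.κ (p.tgt e)) * sg (p.g e k) else 0) = 0 := by
        apply Finset.sum_eq_zero
        intro j' _
        by_cases hj : j' = j
        · simp only [if_pos hj]
          rw [← Finset.mul_sum, hp.bal e, mul_zero]
        · simp [if_neg hj]
      rw [h3, zero_add, Finset.sum_comm]
      apply Finset.sum_eq_zero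
      intro k _
      rw [← Finset.mul_sum, alt_sum hN j, mul_zero]
    rw [h0, h1, h2, zero_add, zero_add]
    rcases hA1 with h | h
    · left; rw [h, one_mul]
    · right; rw [h]; ring

end Pool.Agent.Work.MP_e17eac_co.DL
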