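import Pool.Agent.Work.MP_e17eac_co.DL.Defs

/-!
# Dense point sets with many halving lines: the configuration

`N = r b` rays (`N` odd) with slopes `j / N` and alternating orientations; on each ray a translate
of the pattern with perturbed integer abscissas; fillers in antipodal pairs.
-/

set_option autoImplicit false

namespace Pool.Agent.Work.MP_e17eac_co.DL

open Finset Filter Topology Pool.Agent.Work.MP_e17eac_co.HL Pool.Agent.Work.MP_e17eac_co.NC

/-- The alternating sum of the sides. -/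
lemma alt_sum_range (j : ℕ) (n : ℕ) (hn : j < n) :
    ∑ i ∈ range n, (-1 : ℤ) ^ i * (if j < i then 1 else if i < j then -1 else 0) =
      (∑ i ∈ range n, (-1 : ℤ) ^ i) - (∑ i ∈ range (j + 1), (-1 : ℤ) ^ i) -
        ∑ i ∈ range j, (-1 : ℤ) ^ i := by
  induction n, Nat.succ_le_of_lt hn using Nat.le_induction with
  | base =>
    have h : ∑ i ∈ range j, (-1 : ℤ) ^ i * (if j < i then 1 else if i < j then -1 else 0) =
        - ∑ i ∈ range j, (-1 : ℤ) ^ i := by
      rw [← Finset.sum_neg_distrib]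
      refine Finset.sum_congr rfl fun i hi => ?_
      have hi' := Finset.mem_range.mp hi
      rw [if_neg (not_lt.mpr hi'.le), if_pos hi']
      ring
    rw [Nat.succ_eq_add_one, Finset.sum_range_succ, h]
    simp
  | succ n hn' ih =>
    have hjn : j < n := hn'
    rw [Finset.sum_range_succ, ih hjn, if_pos hjn, Finset.sum_range_succ _ n]
    ring

lemma alt_sum {N : ℕ} (hN : Odd N) (j : Fin N) :
    ∑ i : Fin N, (-1 : ℤ) ^ (i : ℕ) * (if j < i then 1 else if i < j then -1 else 0) = 0 := by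
  have h := alt_sum_range j N j.2
  rw [← Fin.sum_univ_eq_sum_range
    (fun i => (-1 : ℤ) ^ i * (if (j : ℕ) < i then 1 else if i < (j : ℕ) then -1 else 0))] at h
  rw [neg_one_geom_sum, neg_one_geom_sum, neg_one_geom_sum, if_neg (Nat.not_even_iff_odd.mpr hN)]
    at h
  have h2 : ∑ i : Fin N, (-1 : ℤ) ^ (i : ℕ) * (if j < i then 1 else if i < j then -1 else 0) =
      ∑ i : Fin N, (-1 : ℤ) ^ (i : ℕ) *
        (if (j : ℕ) < (i : ℕ) then 1 else if (i : ℕ) < (j : ℕ) then -1 else 0) := by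
    refine Finset.sum_congr rfl fun i _ => ?_
    simp only [Fin.lt_def]
  rw [h2, h]
  rcases Nat.even_or_odd (j : ℕ) with h3 | h3
  · rw [if_pos h3, if_neg (by rw [Nat.not_even_iff_odd]; exact h3.add_one)]
    ring
  · rw [if_neg (Nat.not_even_iff_odd.mpr h3), if_pos h3.add_one]
    ring

section Cfg

variable (p : Pat) (r b f d W : ℕ)

/-- The index of a point of the pattern. -/
noncomputable def idx (k : p.K) : ℕ := (Fintype.equivFin p.K k : ℕ)

lemma idx_lt (k : p.K) : idx p k < Fintype.card p.K := (Fintype.equivFin p.K k).2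

lemma idx_inj {k l : p.K} (h : idx p k = idx p l) : k = l :=
  (Fintype.equivFin p.K).injective (Fin.ext h)

/-- The abscissas. -/
noncomputable def px (c : ℕ) (k : p.K) : ℤ :=
  9 * (Fintype.card p.K : ℤ) * (p.X : ℤ) ^ 2 + b +
    (Fintype.card p.K : ℤ) * (9 * p.X * p.κ k + c) + idx p k

/-- The index type: points on the rays, antipodal pairs of fillers, extra points. -/
abbrev Ix : Type := (Fin (r * b) × p.K) ⊕ ((Fin f × Bool) ⊕ Fin d)

/-- The sign of a ray. -/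
def sr (j : ℕ) : ℝ := (-1) ^ j

/-- The points. -/
noncomputable def zz (ε : ℝ) : Ix p r b f d → ℝ × ℝ
  | Sum.inl (j, k) =>
    (sr j * (px p b ((j : ℕ) % r) k : ℝ),
      sr j * ((j : ℕ) / ((r * b : ℕ) : ℝ) * (px p b ((j : ℕ) % r) k : ℝ) + ε * p.δ k))
  | Sum.inr (Sum.inl (q, true)) =>
    ((((q : ℕ) % W : ℕ) : ℝ) + 1, -((((q : ℕ) / W : ℕ) : ℝ) + 2))
  | Sum.inr (Sum.inl (q, false)) =>
    (-((((q : ℕ) % W : ℕ) : ℝ) + 1), (((q : ℕ) / W : ℕ) : ℝ) + 2)
  | Sum.inr (Sum.inr q) =>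
    (-((((q : ℕ) % W : ℕ) : ℝ) + 1), (((q : ℕ) / W : ℕ) : ℝ) + (W + 2))

end Cfg

/-- Distances. -/
def StDist : Prop :=
  ∀ (p : Pat) (r b f d W : ℕ), p.Good → 0 < r → 0 < b → 18 * p.X ^ 2 ≤ r →
    b ≤ 2 * (Fintype.card p.K * r) + 1 → f ≤ W * W → d ≤ W * W →
    ∀ ε : ℝ, 0 < ε → ε ≤ 1 → ∀ i j : Ix p r b f d, i ≠ j →
      1 ≤ dst (zz p r b f d W ε i) (zz p r b f d W ε j) ∧
        dst (zz p r b f d W ε i) (zz p r b f d W ε j) ≤
          16 * (Fintype.card p.K * r : ℕ) + 6 * W + 2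

/-- Balance. -/
def StBal : Prop :=
  ∀ (p : Pat) (r b f d W : ℕ), p.Good → 0 < r → 0 < b → Odd (r * b) →
    ∀ᶠ ε in 𝓝[>] (0 : ℝ), ∀ (j : Fin (r * b)) (e : p.E),
      (∀ i : Ix p r b f d, i ≠ Sum.inl (j, p.src e) → i ≠ Sum.inl (j, p.tgt e) →
        side (zz p r b f d W ε (Sum.inl (j, p.src e))) (zz p r b f d W ε (Sum.inl (j, p.tgt e)))
          (zz p r b f d W ε i) ≠ 0) ∧
      (∑ i : Ix p r b f d, sg (side (zz p r b f d W ε (Sum.inl (j, p.src e)))
        (zz p r b f d W ε (Sum.inl (j, p.tgt e))) (zz p r b f d W ε i)) = d ∨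
      ∑ i : Ix p r b f d, sg (side (zz p r b f d W ε (Sum.inl (j, p.src e)))
        (zz p r b f d W ε (Sum.inl (j, p.tgt e))) (zz p r b f d W ε i)) = -d)

/-- The set built from a pattern. -/
def StSet : Prop :=
  ∀ (p : Pat) (r b f d W k : ℕ), p.Good → 0 < Fintype.card p.K → 0 < r → 0 < b → Odd (r * b) →
    18 * p.X ^ 2 ≤ r →
    b ≤ 2 * (Fintype.card p.K * r) + 1 → f ≤ W * W → d ≤ W * W →
    r * b * Fintype.card p.K + 2 * f = 2 * k + 2 →
    ∃ P : Finset (ℝ × ℝ), P.card = 2 * k + 2 + d ∧ GP P ∧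
      (∀ x ∈ P, ∀ y ∈ P, x ≠ y → 1 / 2 ≤ dst x y ∧
        dst x y ≤ 16 * (Fintype.card p.K * r : ℕ) + 6 * W + 3) ∧
      r * b * Fintype.card p.E ≤ (kE P k).card

end Pool.Agent.Work.MP_e17eac_co.DL
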