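import Pool.Agent.Work.MP_e17eac_co.HLPoints

/-!
# Dense point sets with many halving lines: definitions
-/

set_option autoImplicit false

namespace Pool.Agent.Work.MP_e17eac_co.DL

open Finset Pool.Agent.Work.MP_e17eac_co.HL

/-- `(p, q)` is a pair of distinct points of `P` whose directed line has exactly `k` points of `P`
strictly to its left and the remaining `|P| - 2 - k` points strictly to its right. -/
def IsKE (P : Finset (ℝ × ℝ)) (k : ℕ) (p q : ℝ × ℝ) : Prop :=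
  p ∈ P ∧ q ∈ P ∧ p ≠ q ∧ (P.filter fun r => 0 < side p q r).card = k ∧
    (P.filter fun r => side p q r < 0).card + k + 2 = P.card

/-- General position. -/
def GP (P : Finset (ℝ × ℝ)) : Prop :=
  ∀ p ∈ P, ∀ q ∈ P, ∀ r ∈ P, p ≠ q → p ≠ r → q ≠ r → side p q r ≠ 0

open Classical in
/-- The `k`-edges. -/
noncomputable def kE (P : Finset (ℝ × ℝ)) (k : ℕ) : Finset (Finset (ℝ × ℝ)) :=
  (P.powersetCard 2).filter fun e => ∃ p q : ℝ × ℝ, e = {p, q} ∧ IsKE P k p q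

/-- Euclidean distance. -/
noncomputable def dst (p q : ℝ × ℝ) : ℝ := Real.sqrt ((p.1 - q.1) ^ 2 + (p.2 - q.2) ^ 2)

/-- The points of a family `z` realise the pairs `E` of imbalance `± d` in a dense set. -/
def StGen : Prop :=
  ∀ (ι : Type) (_ : Fintype ι) (z : ι → ℝ × ℝ) (E : Finset (ι × ι)) (D : ℝ) (d k : ℕ),
    Fintype.card ι = 2 * k + 2 + d →
    (∀ e ∈ E, e.1 ≠ e.2 ∧ (∀ k, k ≠ e.1 → k ≠ e.2 → side (z e.1) (z e.2) (z k) ≠ 0) ∧
      (∑ k, sg (side (z e.1) (z e.2) (z k)) = d ∨ ∑ k, sg (side (z e.1) (z e.2) (z k)) = -d)) →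
    (∀ e ∈ E, (e.2, e.1) ∉ E) →
    (∀ i j, i ≠ j → 1 ≤ dst (z i) (z j) ∧ dst (z i) (z j) ≤ D) →
    ∃ P : Finset (ℝ × ℝ), P.card = Fintype.card ι ∧ GP P ∧
      (∀ p ∈ P, ∀ q ∈ P, p ≠ q → 1 / 2 ≤ dst p q ∧ dst p q ≤ D + 1) ∧
      E.card ≤ (kE P k).card

end Pool.Agent.Work.MP_e17eac_co.DL
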