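import Pool.Agent.Work.MP_e17eac_co.DL.Cfg

/-!
# Dense point sets with many halving lines: distances
-/

set_option autoImplicit false

namespace Pool.Agent.Work.MP_e17eac_co.DL

open Finset Filter Topology Pool.Agent.Work.MP_e17eac_co.HL Pool.Agent.Work.MP_e17eac_co.NC

lemma dst_ge_fst {x y : ℝ × ℝ} (h : 1 ≤ |x.1 - y.1|) : 1 ≤ dst x y := by
  unfold dst
  apply Real.le_sqrt_of_sq_le
  have h1 : 1 ≤ (x.1 - y.1) ^ 2 := by
    rw [← sq_abs]; nlinarith
  nlinarith [sq_nonneg (x.2 - y.2)]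

lemma dst_ge_snd {x y : ℝ × ℝ} (h : 1 ≤ |x.2 - y.2|) : 1 ≤ dst x y := by
  unfold dst
  apply Real.le_sqrt_of_sq_le
  have h1 : 1 ≤ (x.2 - y.2) ^ 2 := by
    rw [← sq_abs]; nlinarith
  nlinarith [sq_nonneg (x.1 - y.1)]

lemma dst_comm (x y : ℝ × ℝ) : dst x y = dst y x := by
  unfold dst
  congr 1
  ring

lemma dst_le_of {x y : ℝ × ℝ} {A B : ℝ} (hx1 : |x.1| ≤ A) (hy1 : |y.1| ≤ A) (hx2 : |x.2| ≤ B)
    (hy2 : |y.2| ≤ B) : dst x y ≤ 2 * A + 2 * B := by
  unfold dst
  rw [abs_le] at hx1 hy1 hx2 hy2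
  apply Real.sqrt_le_iff.mpr
  refine ⟨by linarith, ?_⟩
  have h1 : (x.1 - y.1) ^ 2 ≤ (2 * A) ^ 2 := by
    apply sq_le_sq' <;> linarith
  have h2 : (x.2 - y.2) ^ 2 ≤ (2 * B) ^ 2 := by
    apply sq_le_sq' <;> linarith
  have h3 : 0 ≤ A := by linarith
  have h4 : 0 ≤ B := by linarith
  nlinarith [mul_nonneg h3 h4]

lemma sr_or (j : ℕ) : sr j = 1 ∨ sr j = -1 := by
  unfold sr
  exact neg_one_pow_eq_or ℝ j

section

variable {p : Pat} {r b : ℕ}

lemma px_ge (hp : p.Good) (c : ℕ) (k : p.K) : (b : ℤ) ≤ px p b c k := by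
  unfold px
  have h1 := hp.κ_le k
  rw [abs_le] at h1
  have h2 : (0 : ℤ) ≤ Fintype.card p.K := by positivity
  have h3 : (0 : ℤ) ≤ p.X := by positivity
  have h4 : (0 : ℤ) ≤ c := by positivity
  have h5 : (0 : ℤ) ≤ idx p k := by positivity
  have h6 : (0 : ℤ) ≤ (Fintype.card p.K : ℤ) * (9 * p.X * (p.X + p.κ k) + c) := by
    apply mul_nonneg h2
    have := mul_nonneg h3 (show (0 : ℤ) ≤ p.X + p.κ k by linarith)
    nlinarith
  nlinarith

lemma px_le (hp : p.Good) (hr : 18 * p.X ^ 2 ≤ r)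
    (hb : b ≤ 2 * (Fintype.card p.K * r) + 1) {c : ℕ} (hc : c < r) (k : p.K) :
    px p b c k ≤ 4 * ((Fintype.card p.K * r : ℕ) : ℤ) := by
  unfold px
  have h1 := hp.κ_le k
  rw [abs_le] at h1
  have h2 : (0 : ℤ) ≤ Fintype.card p.K := by positivity
  have h3 : (0 : ℤ) ≤ p.X := by positivity
  have h4 : (c : ℤ) + 1 ≤ r := by exact_mod_cast hc
  have h5 : (idx p k : ℤ) + 1 ≤ Fintype.card p.K := by exact_mod_cast idx_lt p k
  have h6 : 18 * (p.X : ℤ) ^ 2 ≤ r := by exact_mod_cast hr
  have h7 : (b : ℤ) ≤ 2 * (Fintype.card p.K * r) + 1 := by exact_mod_cast hb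
  have h8 : (p.X : ℤ) * p.κ k ≤ p.X * p.X := mul_le_mul_of_nonneg_left h1.2 h3
  have h9 : (Fintype.card p.K : ℤ) * (9 * p.X * p.κ k + c) ≤
      Fintype.card p.K * (9 * p.X ^ 2 + (r - 1)) := by
    apply mul_le_mul_of_nonneg_left _ h2
    nlinarith
  have h10 : (Fintype.card p.K : ℤ) * (18 * p.X ^ 2) ≤ Fintype.card p.K * r :=
    mul_le_mul_of_nonneg_left h6 h2
  push_cast
  nlinarith

lemma px_eq {c c' : ℕ} {k k' : p.K} (h : px p b c k = px p b c' k') : k = k' ∧ c = c' := by
  unfold px at h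
  have h1 : (idx p k : ℤ) - idx p k' = (Fintype.card p.K : ℤ) *
      ((9 * p.X * p.κ k' + c') - (9 * p.X * p.κ k + c)) := by linarith
  have h2 : (idx p k : ℤ) < Fintype.card p.K := by exact_mod_cast idx_lt p k
  have h3 : (idx p k' : ℤ) < Fintype.card p.K := by exact_mod_cast idx_lt p k'
  have h4 : (0 : ℤ) ≤ idx p k := by positivity
  have h5 : (0 : ℤ) ≤ idx p k' := by positivity
  have hm : (0 : ℤ) < Fintype.card p.K := by linarith
  have h6 : (idx p k : ℤ) - idx p k' = 0 := by
    apply Int.eq_zero_of_abs_lt_dvd (Dvd.intro _ h1.symm)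
    rw [abs_lt]
    constructor <;> linarith
  have h7 : k = k' := idx_inj p (by
    have : (idx p k : ℤ) = idx p k' := by linarith
    exact_mod_cast this)
  refine ⟨h7, ?_⟩
  subst h7
  rw [h6] at h1
  have h8 := (mul_eq_zero.mp h1.symm).resolve_left hm.ne'
  have h9 : (c : ℤ) = c' := by linarith
  exact_mod_cast h9

end

lemma abs_one_le_of_int {a c : ℤ} (h : a ≠ c) : (1 : ℝ) ≤ |(a : ℝ) - c| := by
  have h1 : a - c ≠ 0 := sub_ne_zero.mpr h
  have h2 : (1 : ℤ) ≤ |a - c| := Int.one_le_abs h1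
  exact_mod_cast h2

theorem stDist : StDist := by
  intro p r b f d W hp hr hb hrX hbm hf hd ε hε hε1 i j hij
  have hb1 : (1 : ℝ) ≤ b := by exact_mod_cast hb
  have hN : (0 : ℝ) < ((r * b : ℕ) : ℝ) := by
    have := Nat.mul_pos hr hb
    exact_mod_cast this
  have hbr : (0 : ℝ) < (r : ℝ) := by exact_mod_cast hr
  -- bounds for the abscissas
  have hx1 : ∀ (j : Fin (r * b)) (k : p.K), (b : ℝ) ≤ (px p b ((j : ℕ) % r) k : ℝ) := by
    intro j k
    exact_mod_cast px_ge (b := b) hp ((j : ℕ) % r) k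
  have hx2 : ∀ (j : Fin (r * b)) (k : p.K), (px p b ((j : ℕ) % r) k : ℝ) ≤
      4 * ((Fintype.card p.K * r : ℕ) : ℝ) := by
    intro j k
    exact_mod_cast px_le (b := b) hp hrX hbm (Nat.mod_lt _ hr) k
  have ht0 : ∀ j : Fin (r * b), 0 ≤ (j : ℕ) / ((r * b : ℕ) : ℝ) := fun j => by positivity
  have ht1 : ∀ j : Fin (r * b), (j : ℕ) / ((r * b : ℕ) : ℝ) ≤ 1 := by
    intro j
    rw [div_le_one hN]
    exact_mod_cast j.2.le
  have hδ : ∀ k : p.K, -1 ≤ ε * p.δ k ∧ ε * p.δ k ≤ 1 := by
    intro k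
    have h := abs_le.mp (hp.δ_le k)
    constructor
    · nlinarith
    · nlinarith
  have hy0 : ∀ (j : Fin (r * b)) (k : p.K), -1 ≤ (j : ℕ) / ((r * b : ℕ) : ℝ) *
      (px p b ((j : ℕ) % r) k : ℝ) + ε * p.δ k := by
    intro j k
    have h1 := mul_nonneg (ht0 j) (show (0 : ℝ) ≤ (px p b ((j : ℕ) % r) k : ℝ) by
      linarith [hx1 j k])
    linarith [(hδ k).1]
  have hy1 : ∀ (j : Fin (r * b)) (k : p.K), (j : ℕ) / ((r * b : ℕ) : ℝ) *
      (px p b ((j : ℕ) % r) k : ℝ) + ε * p.δ k ≤ 4 * ((Fintype.card p.K * r : ℕ) : ℝ) + 1 := by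
    intro j k
    have h1 : (j : ℕ) / ((r * b : ℕ) : ℝ) * (px p b ((j : ℕ) % r) k : ℝ) ≤
        1 * (px p b ((j : ℕ) % r) k : ℝ) :=
      mul_le_mul_of_nonneg_right (ht1 j) (by linarith [hx1 j k])
    linarith [(hδ k).2, hx2 j k]
  -- bounds for the fillers
  have hWpos : ∀ q : ℕ, q < W * W → 0 < W := by
    intro q h1
    rcases Nat.eq_zero_or_pos W with h | h
    · subst h; omega
    · exact h
  have hqf : ∀ q : Fin f, (q : ℕ) < W * W := fun q => lt_of_lt_of_le q.2 hf
  have hqd : ∀ q : Fin d, (q : ℕ) < W * W := fun q => lt_of_lt_of_le q.2 hd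
  have hmr0 : (0 : ℝ) ≤ ((Fintype.card p.K * r : ℕ) : ℝ) := Nat.cast_nonneg _
  have hu : ∀ q : ℕ, q < W * W → (((q % W : ℕ) : ℝ) + 1) ≤ W := by
    intro q hq
    have h1 : q % W < W := Nat.mod_lt _ (hWpos q hq)
    have h2 : (q % W) + 1 ≤ W := h1
    exact_mod_cast h2
  have hv : ∀ q : ℕ, q < W * W → (((q / W : ℕ) : ℝ) + 1) ≤ W := by
    intro q hq
    have h1 : q / W < W := Nat.div_lt_of_lt_mul hq
    have h2 : (q / W) + 1 ≤ W := h1
    exact_mod_cast h2
  have hu0 : ∀ q : ℕ, (0 : ℝ) ≤ ((q % W : ℕ) : ℝ) := fun q => by positivity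
  have hv0 : ∀ q : ℕ, (0 : ℝ) ≤ ((q / W : ℕ) : ℝ) := fun q => by positivity
  have hW0 : (0 : ℝ) ≤ W := Nat.cast_nonneg _
  constructor
  · -- lower bound
    have hlr : ∀ (a : Fin (r * b) × p.K) (q : (Fin f × Bool) ⊕ Fin d),
        1 ≤ dst (zz p r b f d W ε (Sum.inl a)) (zz p r b f d W ε (Sum.inr q)) := by
      rintro ⟨j, k⟩ (⟨q, s⟩ | q)
      · have e1 := hx1 j k
        have e2 := hy0 j k
        have e3 := hu0 q
        have e4 := hv0 q
        rcases sr_or (j : ℕ) with h | h <;> cases s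
        · apply dst_ge_fst
          simp only [zz, h]
          rw [le_abs]; left; linarith
        · apply dst_ge_snd
          simp only [zz, h]
          rw [le_abs]; left; linarith
        · apply dst_ge_snd
          simp only [zz, h]
          rw [le_abs]; right; linarith
        · apply dst_ge_fst
          simp only [zz, h]
          rw [le_abs]; right; linarith
      · have e1 := hx1 j k
        have e2 := hy0 j k
        have e3 := hu0 q
        have e4 := hv0 q
        rcases sr_or (j : ℕ) with h | h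
        · apply dst_ge_fst
          simp only [zz, h]
          rw [le_abs]; left; linarith
        · apply dst_ge_snd
          simp only [zz, h]
          rw [le_abs]; right; linarith
    have hint : ∀ a c : ℕ, a ≠ c → (1 : ℝ) ≤ |(a : ℝ) - c| := by
      intro a c hac
      have h3 : ((a : ℤ)) ≠ (c : ℤ) := by exact_mod_cast hac
      have := abs_one_le_of_int h3
      exact_mod_cast this
    have hqq : ∀ q1 q2 : ℕ, q1 ≠ q2 → (q1 % W ≠ q2 % W ∨ q1 / W ≠ q2 / W) := by
      intro q1 q2 hq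
      by_contra hcon
      push Not at hcon
      apply hq
      rw [← Nat.div_add_mod q1 W, ← Nat.div_add_mod q2 W, hcon.1, hcon.2]
    have hrr : ∀ (q1 : Fin f × Bool) (q2 : Fin d),
        1 ≤ dst (zz p r b f d W ε (Sum.inr (Sum.inl q1))) (zz p r b f d W ε (Sum.inr (Sum.inr q2)))
        := by
      rintro ⟨q1, s⟩ q2
      have e1 := hu0 q1
      have e2 := hu0 q2
      have e3 := hv q1 (hqf q1)
      have e4 := hv0 q2
      cases s
      · apply dst_ge_snd
        simp only [zz]
        rw [le_abs]; right; linarith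
      · apply dst_ge_fst
        simp only [zz]
        rw [le_abs]; left; linarith
    rcases i with ⟨j1, k1⟩ | (⟨q1, s1⟩ | q1) <;> rcases j with ⟨j2, k2⟩ | (⟨q2, s2⟩ | q2)
    · have e1 := hx1 j1 k1
      have e2 := hx1 j2 k2
      have key : ∀ s : ℝ, (s = 1 ∨ s = -1) → sr (j1 : ℕ) = s → sr (j2 : ℕ) = s →
          1 ≤ dst (zz p r b f d W ε (Sum.inl (j1, k1))) (zz p r b f d W ε (Sum.inl (j2, k2))) := by
        intro s hs h h'
        by_cases hxx : px p b ((j1 : ℕ) % r) k1 = px p b ((j2 : ℕ) % r) k2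
        · -- same orientation, same abscissa
          obtain ⟨hk, hc⟩ := px_eq hxx
          subst hk
          have hjj : (j1 : ℕ) ≠ (j2 : ℕ) := by
            intro h3
            exact hij (by rw [Fin.ext h3])
          have h4 : (r : ℤ) ∣ (j1 : ℕ) - (j2 : ℕ) := by
            have h5 : (j2 : ℕ) ≡ (j1 : ℕ) [MOD r] := hc.symm
            exact (Nat.modEq_iff_dvd.mp h5)
          have h5 : (r : ℤ) ≤ |((j1 : ℕ) : ℤ) - (j2 : ℕ)| := by
            apply Int.le_of_dvd
            · rw [abs_pos, sub_ne_zero]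
              exact_mod_cast hjj
            · exact (dvd_abs _ _).mpr h4
          have h6 : (r : ℝ) ≤ |((j1 : ℕ) : ℝ) - (j2 : ℕ)| := by exact_mod_cast h5
          apply dst_ge_snd
          simp only [zz, h, h']
          rw [← hc]
          have h7 : s * ((j1 : ℕ) / ((r * b : ℕ) : ℝ) * (px p b ((j1 : ℕ) % r) k1 : ℝ) +
              ε * p.δ k1) - s * ((j2 : ℕ) / ((r * b : ℕ) : ℝ) *
              (px p b ((j1 : ℕ) % r) k1 : ℝ) + ε * p.δ k1) =
              s * ((((j1 : ℕ) : ℝ) - (j2 : ℕ)) * ((px p b ((j1 : ℕ) % r) k1 : ℝ) /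
                ((r * b : ℕ) : ℝ))) := by
            ring
          rw [h7, abs_mul, abs_mul]
          have h8 : |s| = 1 := by rcases hs with rfl | rfl <;> simp
          rw [h8, one_mul]
          have h9 : (1 : ℝ) / r ≤ |(px p b ((j1 : ℕ) % r) k1 : ℝ) / ((r * b : ℕ) : ℝ)| := by
            rw [abs_of_nonneg (div_nonneg (by linarith) hN.le)]
            rw [div_le_div_iff₀ hbr hN]
            push_cast
            nlinarith
          calc (1 : ℝ) = r * (1 / r) := by field_simp
            _ ≤ |((j1 : ℕ) : ℝ) - (j2 : ℕ)| * (1 / r) :=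
              mul_le_mul_of_nonneg_right h6 (by positivity)
            _ ≤ _ := mul_le_mul_of_nonneg_left h9 (abs_nonneg _)
        · apply dst_ge_fst
          simp only [zz, h, h']
          rw [← mul_sub, abs_mul]
          have h8 : |s| = 1 := by rcases hs with rfl | rfl <;> simp
          rw [h8, one_mul]
          exact abs_one_le_of_int hxx
      rcases sr_or (j1 : ℕ) with h | h <;> rcases sr_or (j2 : ℕ) with h' | h'
      · exact key 1 (Or.inl rfl) h h'
      · apply dst_ge_fst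
        simp only [zz, h, h']
        rw [le_abs]; left; linarith
      · apply dst_ge_fst
        simp only [zz, h, h']
        rw [le_abs]; right; linarith
      · exact key (-1) (Or.inr rfl) h h'
    · exact hlr _ _
    · exact hlr _ _
    · rw [dst_comm]; exact hlr _ _
    · have e1 := hu0 q1
      have e2 := hu0 q2
      have hne : s1 = s2 → ((q1 : ℕ) % W ≠ (q2 : ℕ) % W ∨ (q1 : ℕ) / W ≠ (q2 : ℕ) / W) := by
        intro hs
        apply hqq
        intro h3
        apply hij
        rw [hs, Fin.ext h3]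
      cases s1 <;> cases s2
      · rcases hne rfl with h | h
        · apply dst_ge_fst
          simp only [zz]
          have h3 : (-((((q1 : ℕ) % W : ℕ) : ℝ) + 1) - -((((q2 : ℕ) % W : ℕ) : ℝ) + 1)) =
              ((((q2 : ℕ) % W : ℕ) : ℝ)) - ((((q1 : ℕ) % W : ℕ) : ℝ)) := by ring
          rw [h3]
          exact hint _ _ (Ne.symm h)
        · apply dst_ge_snd
          simp only [zz]
          have h3 : (((((q1 : ℕ) / W : ℕ) : ℝ) + 2) - ((((q2 : ℕ) / W : ℕ) : ℝ) + 2)) =
              ((((q1 : ℕ) / W : ℕ) : ℝ)) - ((((q2 : ℕ) / W : ℕ) : ℝ)) := by ring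
          rw [h3]
          exact hint _ _ h
      · apply dst_ge_fst
        simp only [zz]
        rw [le_abs]; right; linarith
      · apply dst_ge_fst
        simp only [zz]
        rw [le_abs]; left; linarith
      · rcases hne rfl with h | h
        · apply dst_ge_fst
          simp only [zz]
          have h3 : (((((q1 : ℕ) % W : ℕ) : ℝ) + 1) - ((((q2 : ℕ) % W : ℕ) : ℝ) + 1)) =
              ((((q1 : ℕ) % W : ℕ) : ℝ)) - ((((q2 : ℕ) % W : ℕ) : ℝ)) := by ring
          rw [h3]
          exact hint _ _ h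
        · apply dst_ge_snd
          simp only [zz]
          have h3 : (-((((q1 : ℕ) / W : ℕ) : ℝ) + 2) - -((((q2 : ℕ) / W : ℕ) : ℝ) + 2)) =
              ((((q2 : ℕ) / W : ℕ) : ℝ)) - ((((q1 : ℕ) / W : ℕ) : ℝ)) := by ring
          rw [h3]
          exact hint _ _ (Ne.symm h)
    · exact hrr _ _
    · rw [dst_comm]; exact hlr _ _
    · rw [dst_comm]; exact hrr _ _
    · have hne : ((q1 : ℕ) % W ≠ (q2 : ℕ) % W ∨ (q1 : ℕ) / W ≠ (q2 : ℕ) / W) := by
        apply hqq
        intro h3
        apply hij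
        rw [Fin.ext h3]
      rcases hne with h | h
      · apply dst_ge_fst
        simp only [zz]
        have h3 : (-((((q1 : ℕ) % W : ℕ) : ℝ) + 1) - -((((q2 : ℕ) % W : ℕ) : ℝ) + 1)) =
            ((((q2 : ℕ) % W : ℕ) : ℝ)) - ((((q1 : ℕ) % W : ℕ) : ℝ)) := by ring
        rw [h3]
        exact hint _ _ (Ne.symm h)
      · apply dst_ge_snd
        simp only [zz]
        have h3 : (((((q1 : ℕ) / W : ℕ) : ℝ) + (W + 2)) -
            ((((q2 : ℕ) / W : ℕ) : ℝ) + (W + 2))) =
            ((((q1 : ℕ) / W : ℕ) : ℝ)) - ((((q2 : ℕ) / W : ℕ) : ℝ)) := by ring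
        rw [h3]
        exact hint _ _ h
  · have hbd : ∀ i : Ix p r b f d,
        |(zz p r b f d W ε i).1| ≤ 4 * ((Fintype.card p.K * r : ℕ) : ℝ) + W ∧
        |(zz p r b f d W ε i).2| ≤ 4 * ((Fintype.card p.K * r : ℕ) : ℝ) + 2 * W + 1 := by
      rintro (⟨j, k⟩ | (⟨q, s⟩ | q))
      · have e1 := hx1 j k
        have e2 := hx2 j k
        have e3 := hy0 j k
        have e4 := hy1 j k
        rcases sr_or (j : ℕ) with h | h
        · simp only [zz, h]
          constructor
          · rw [abs_le]; constructor <;> linarith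
          · rw [abs_le]; constructor <;> linarith
        · simp only [zz, h]
          constructor
          · rw [abs_le]; constructor <;> linarith
          · rw [abs_le]; constructor <;> linarith
      · have e1 := hu q (hqf q)
        have e2 := hv q (hqf q)
        have e3 := hu0 q
        have e4 := hv0 q
        cases s
        · simp only [zz]
          constructor
          · rw [abs_le]; constructor <;> linarith
          · rw [abs_le]; constructor <;> linarith
        · simp only [zz]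
          constructor
          · rw [abs_le]; constructor <;> linarith
          · rw [abs_le]; constructor <;> linarith
      · have e1 := hu q (hqd q)
        have e2 := hv q (hqd q)
        have e3 := hu0 q
        have e4 := hv0 q
        simp only [zz]
        constructor
        · rw [abs_le]; constructor <;> linarith
        · rw [abs_le]; constructor <;> linarith
    have h3 := dst_le_of (hbd i).1 (hbd j).1 (hbd i).2 (hbd j).2
    linarith

end Pool.Agent.Work.MP_e17eac_co.DL
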