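import Pool.Agent.Work.MP_e17eac_co.DL.Defs

set_option autoImplicit false

namespace Pool.Agent.Work.MP_e17eac_co.DL

open Finset Filter Topology Pool.Agent.Work.MP_e17eac_co.HL

theorem stGen : StGen := by
  classical
  intro ι hι z E D d k hcard hE hasym hdist
  let m : ι → ℝ := fun i => (z i).1
  let c : ι → ℝ := fun i => (z i).2
  let κ : ι → ℝ := fun k => ((Fintype.equivFin ι k : ℕ) : ℝ)
  have hκ : Function.Injective κ := by
    intro a b hab
    simp only [κ, Nat.cast_inj] at hab
    exact (Fintype.equivFin ι).injective (Fin.ext hab)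
  let w : ℝ → ι → ℝ × ℝ := pert m c (fun _ => 0) (fun _ => 0) κ
  have hw0 : ∀ i, w 0 i = z i := by
    intro i
    simp only [w, pert, m, c]
    ext <;> simp
  have hwc : ∀ i, Continuous fun t => w t i := by
    intro i
    simp only [w]
    unfold pert
    fun_prop
  have hsidec : ∀ i j k, Continuous fun t => side (w t i) (w t j) (w t k) := by
    intro i j k
    simp only [w]
    unfold side pert
    fun_prop
  have hdstc : ∀ i j, Continuous fun t => dst (w t i) (w t j) := by
    intro i j
    simp only [w]
    unfold dst pert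
    fun_prop
  have hsum : ∀ e ∈ E, ∀ᶠ t in 𝓝[>] (0 : ℝ),
      ∑ l, sg (side (w t e.1) (w t e.2) (w t l)) =
        ∑ l, sg (side (z e.1) (z e.2) (z l)) := by
    intro e he
    obtain ⟨hne, hk, hs⟩ := hE e he
    have hall : ∀ l, ∀ᶠ t in 𝓝[>] (0 : ℝ),
        sg (side (w t e.1) (w t e.2) (w t l)) = sg (side (z e.1) (z e.2) (z l)) := by
      intro l
      by_cases hl : l = e.1 ∨ l = e.2
      · refine Eventually.of_forall fun t => ?_
        rcases hl with rfl | rfl
        · unfold side; ring_nf
        · congr 1; unfold side; ring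
      · push Not at hl
        have h2 := hk l hl.1 hl.2
        refine eventually_sg_eq ?_ h2
        have h3 : side (w 0 e.1) (w 0 e.2) (w 0 l) = side (z e.1) (z e.2) (z l) := by
          rw [hw0, hw0, hw0]
        rw [← h3]
        exact (hsidec e.1 e.2 l).continuousAt.mono_left nhdsWithin_le_nhds
    filter_upwards [eventually_all.mpr hall] with t ht
    rw [Finset.sum_congr rfl fun l _ => ht l]
  have hsum' : ∀ᶠ t in 𝓝[>] (0 : ℝ), ∀ e ∈ E,
      ∑ l, sg (side (w t e.1) (w t e.2) (w t l)) =
        ∑ l, sg (side (z e.1) (z e.2) (z l)) :=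
    (Filter.eventually_all_finset E).mpr hsum
  have hgen : ∀ᶠ t in 𝓝[>] (0 : ℝ), ∀ i j l, i ≠ j → i ≠ l → j ≠ l →
      side (w t i) (w t j) (w t l) ≠ 0 := by
    refine eventually_all.mpr fun i => eventually_all.mpr fun j => eventually_all.mpr fun l => ?_
    by_cases hij : i = j
    · exact Eventually.of_forall fun t h => absurd hij h
    by_cases hil : i = l
    · exact Eventually.of_forall fun t _ h => absurd hil h
    by_cases hjl : j = l
    · exact Eventually.of_forall fun t _ _ h => absurd hjl h
    filter_upwards [pert_side_ne m c (fun _ => 0) (fun _ => 0) κ hκ hij hil hjl] with t ht _ _ _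
    exact ht
  have hdd : ∀ᶠ t in 𝓝[>] (0 : ℝ), ∀ i j, i ≠ j →
      1 / 2 < dst (w t i) (w t j) ∧ dst (w t i) (w t j) < D + 1 := by
    refine eventually_all.mpr fun i => eventually_all.mpr fun j => ?_
    by_cases hij : i = j
    · exact Eventually.of_forall fun t h => absurd hij h
    obtain ⟨h1, h2⟩ := hdist i j hij
    have h3 : Tendsto (fun t => dst (w t i) (w t j)) (𝓝[>] (0 : ℝ)) (𝓝 (dst (z i) (z j))) := by
      rw [← hw0 i, ← hw0 j]
      exact (hdstc i j).continuousAt.mono_left nhdsWithin_le_nhds
    filter_upwards [h3.eventually (lt_mem_nhds (show (1 / 2 : ℝ) < dst (z i) (z j) by linarith)),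
      h3.eventually (gt_mem_nhds (show dst (z i) (z j) < D + 1 by linarith))] with t ht ht' _
    exact ⟨ht, ht'⟩
  obtain ⟨t, ⟨h1, h2⟩, h3⟩ := ((hsum'.and hgen).and hdd).exists
  set p : ι → ℝ × ℝ := w t with hp
  have hpinj : Function.Injective p := by
    intro i j hij
    by_contra hne
    have := (h3 i j hne).1
    rw [hij] at this
    unfold dst at this
    simp at this
    linarith
  set P : Finset (ℝ × ℝ) := univ.image p with hP
  have hPcard : P.card = Fintype.card ι := by
    rw [hP, Finset.card_image_of_injective _ hpinj, Finset.card_univ]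
  have hmemP : ∀ i, p i ∈ P := fun i => Finset.mem_image_of_mem p (Finset.mem_univ i)
  have hgp : GP P := by
    intro a ha b hb' r hr hab har hbr
    obtain ⟨i, _, rfl⟩ := Finset.mem_image.mp ha
    obtain ⟨j, _, rfl⟩ := Finset.mem_image.mp hb'
    obtain ⟨l, _, rfl⟩ := Finset.mem_image.mp hr
    exact h2 i j l (fun h => hab (by rw [h])) (fun h => har (by rw [h]))
      (fun h => hbr (by rw [h]))
  refine ⟨P, hPcard, hgp, ?_, ?_⟩
  · intro a ha b hb' hab
    obtain ⟨i, _, rfl⟩ := Finset.mem_image.mp ha
    obtain ⟨j, _, rfl⟩ := Finset.mem_image.mp hb'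
    have h4 := h3 i j (fun h => hab (by rw [h]))
    exact ⟨h4.1.le, h4.2.le⟩
  have hke : ∀ e ∈ E, IsKE P k (p e.1) (p e.2) ∨ IsKE P k (p e.2) (p e.1) := by
    intro e he
    obtain ⟨hne, hk, hs0⟩ := hE e he
    have hne' : p e.1 ≠ p e.2 := fun h => hne (hpinj h)
    have hs := h1 e he
    rw [sum_sg_eq] at hs
    have c1 : (P.filter (fun r => 0 < side (p e.1) (p e.2) r)).card =
        (univ.filter (fun l => 0 < side (p e.1) (p e.2) (p l))).card := by
      rw [hP, Finset.filter_image, Finset.card_image_of_injective _ hpinj]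
    have c2 : (P.filter (fun r => side (p e.1) (p e.2) r < 0)).card =
        (univ.filter (fun l => side (p e.1) (p e.2) (p l) < 0)).card := by
      rw [hP, Finset.filter_image, Finset.card_image_of_injective _ hpinj]
    -- the two ends
    have hsplit : (univ.filter (fun l => 0 < side (p e.1) (p e.2) (p l))).card +
        (univ.filter (fun l => side (p e.1) (p e.2) (p l) < 0)).card + 2 = Fintype.card ι := by
      have h5 : (univ : Finset ι) = (univ.filter (fun l => 0 < side (p e.1) (p e.2) (p l))) ∪
          (univ.filter (fun l => side (p e.1) (p e.2) (p l) < 0)) ∪ {e.1, e.2} := by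
        ext l
        simp only [mem_univ, mem_union, mem_filter, true_and, mem_insert, mem_singleton, true_iff]
        by_cases hl : l = e.1 ∨ l = e.2
        · exact Or.inr hl
        · push Not at hl
          have := h2 e.1 e.2 l hne (Ne.symm hl.1) (Ne.symm hl.2)
          rcases lt_or_gt_of_ne this with h | h
          · exact Or.inl (Or.inr h)
          · exact Or.inl (Or.inl h)
      have z1 : side (p e.1) (p e.2) (p e.1) = 0 := by unfold side; ring
      have z2 : side (p e.1) (p e.2) (p e.2) = 0 := by unfold side; ring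
      have hd1 : Disjoint ((univ.filter (fun l => 0 < side (p e.1) (p e.2) (p l))) ∪
          (univ.filter (fun l => side (p e.1) (p e.2) (p l) < 0))) {e.1, e.2} := by
        rw [Finset.disjoint_left]
        intro l hl hl'
        simp only [mem_union, mem_filter, mem_univ, true_and, mem_insert, mem_singleton] at hl hl'
        rcases hl' with rfl | rfl
        · rw [z1] at hl; simp at hl
        · rw [z2] at hl; simp at hl
      have hd2 : Disjoint (univ.filter (fun l => 0 < side (p e.1) (p e.2) (p l)))
          (univ.filter (fun l => side (p e.1) (p e.2) (p l) < 0)) := by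
        rw [Finset.disjoint_left]
        intro l hl hl'
        simp only [mem_filter, mem_univ, true_and] at hl hl'
        linarith
      have h6 := congrArg Finset.card h5
      rw [Finset.card_union_of_disjoint hd1, Finset.card_union_of_disjoint hd2,
        Finset.card_pair hne, Finset.card_univ] at h6
      omega
    have hsw : ∀ r, side (p e.2) (p e.1) r = - side (p e.1) (p e.2) r := by
      intro r; unfold side; ring
    rcases hs0 with hs0 | hs0
    · right
      rw [hs0] at hs
      refine ⟨hmemP _, hmemP _, hne'.symm, ?_, ?_⟩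
      · have : (P.filter fun r => 0 < side (p e.2) (p e.1) r) =
            P.filter (fun r => side (p e.1) (p e.2) r < 0) := by
          refine Finset.filter_congr fun r _ => ?_
          rw [hsw]
          exact neg_pos
        rw [this, c2]; omega
      · have : (P.filter fun r => side (p e.2) (p e.1) r < 0) =
            P.filter (fun r => 0 < side (p e.1) (p e.2) r) := by
          refine Finset.filter_congr fun r _ => ?_
          rw [hsw]
          exact neg_lt_zero
        rw [this, c1, hPcard]; omega
    · left
      rw [hs0] at hs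
      refine ⟨hmemP _, hmemP _, hne', ?_, ?_⟩
      · rw [c1]; omega
      · rw [c2, hPcard]; omega
  -- counting
  have hinj : Set.InjOn (fun e : ι × ι => ({p e.1, p e.2} : Finset (ℝ × ℝ))) E := by
    rintro e he e' he' hee
    simp only at hee
    have hn := (hE e he).1
    have hn' := (hE e' he').1
    have a1 : p e'.1 ∈ ({p e.1, p e.2} : Finset (ℝ × ℝ)) := by rw [hee]; simp
    have a2 : p e'.2 ∈ ({p e.1, p e.2} : Finset (ℝ × ℝ)) := by rw [hee]; simp
    simp only [mem_insert, mem_singleton] at a1 a2
    rcases a1 with h4 | h4 <;> rcases a2 with h5 | h5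
    · exact absurd (hpinj (h4.trans h5.symm)) hn'
    · exact (Prod.ext (hpinj h4) (hpinj h5)).symm
    · exfalso
      apply hasym e he
      have : (e.2, e.1) = e' := Prod.ext (hpinj h4).symm (hpinj h5).symm
      rw [this]
      exact he'
    · exact absurd (hpinj (h4.trans h5.symm)) hn'
  rw [← Finset.card_image_of_injOn hinj]
  apply Finset.card_le_card
  intro s hs
  obtain ⟨e, he, rfl⟩ := Finset.mem_image.mp hs
  unfold kE
  rw [Finset.mem_filter, Finset.mem_powersetCard]
  have hn := (hE e he).1
  refine ⟨⟨?_, ?_⟩, ?_⟩
  · intro x hx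
    simp only [mem_insert, mem_singleton] at hx
    rcases hx with rfl | rfl
    · exact hmemP _
    · exact hmemP _
  · exact Finset.card_pair fun h => hn (hpinj h)
  · rcases hke e he with h | h
    · exact ⟨p e.1, p e.2, rfl, h⟩
    · exact ⟨p e.2, p e.1, Finset.pair_comm _ _, h⟩

end Pool.Agent.Work.MP_e17eac_co.DL
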