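import Pool.Agent.Work.MP_e17eac_co.DL.Set

/-!
# Dense point sets with many halving lines: the choice of the parameters
-/

set_option autoImplicit false

namespace Pool.Agent.Work.MP_e17eac_co.DL

open Finset Filter Topology Pool.Agent.Work.MP_e17eac_co.HL Pool.Agent.Work.MP_e17eac_co.NC

theorem dl_of_pat {S Q : ℕ} {G : ℝ} (h : PatEx S Q G) {k N : ℕ}
    (hn : 2 ^ (6 * S + 20) ≤ 2 * k + 2) (hkN : 2 * k + 2 ≤ N) :
    ∃ P : Finset (ℝ × ℝ), P.card = N ∧ GP P ∧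
      (∀ x ∈ P, ∀ y ∈ P, x ≠ y → 1 / 2 ≤ dst x y ∧ dst x y ≤ 23 * Real.sqrt N) ∧
      (2 : ℝ) ^ G * ((2 * k + 2 : ℕ) : ℝ) ≤ 16 * ((kE P k).card : ℝ) := by
  obtain ⟨n, hndef⟩ : ∃ n : ℕ, n = 2 * k + 2 := ⟨_, rfl⟩
  rw [← hndef] at hn hkN ⊢
  have hev : Even n := ⟨k + 1, by omega⟩
  obtain ⟨p, hp, hK, _, hm, hX, _, hE⟩ := h
  have hX1 := hp.X_pos
  have hKev := Pat.even_card p hp
  set m : ℕ := Fintype.card p.K with hmdef
  set s : ℕ := Nat.sqrt n with hs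
  have hs1 : s * s ≤ n := Nat.sqrt_le n
  have hs2 : n < (s + 1) * (s + 1) := Nat.lt_succ_sqrt n
  have hs3 : 2 ^ (3 * S + 10) ≤ s := by
    rw [hs, Nat.le_sqrt]
    calc 2 ^ (3 * S + 10) * 2 ^ (3 * S + 10) = 2 ^ (6 * S + 20) := by rw [← pow_add]; ring_nf
      _ ≤ n := hn
  have hmX : m * p.X ^ 2 ≤ 2 ^ (3 * S) := by
    calc m * p.X ^ 2 ≤ 2 ^ S * (2 ^ S) ^ 2 :=
          Nat.mul_le_mul hm (Nat.pow_le_pow_left hX 2)
      _ = 2 ^ (3 * S) := by rw [← pow_mul, ← pow_add]; ring_nf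
  have hs4 : 1024 * (m * p.X ^ 2) ≤ s := by
    calc 1024 * (m * p.X ^ 2) ≤ 1024 * 2 ^ (3 * S) := Nat.mul_le_mul_left _ hmX
      _ = 2 ^ (3 * S + 10) := by rw [pow_add]; ring
      _ ≤ s := hs3
  have hX2 : 1 ≤ p.X ^ 2 := Nat.one_le_pow _ _ hX1
  have hmm : m ≤ m * p.X ^ 2 := Nat.le_mul_of_pos_right _ hX2
  have hs5 : 1024 * m ≤ s := le_trans (Nat.mul_le_mul_left _ hmm) hs4
  set a : ℕ := s / (4 * m) with ha
  have ha1 : 4 * m * a ≤ s := Nat.mul_div_le s (4 * m)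
  have ha2 : s < 4 * m * (a + 1) := Nat.lt_mul_div_succ s (by omega)
  have ha3 : 256 * p.X ^ 2 ≤ a := by
    rw [ha, Nat.le_div_iff_mul_le (by omega)]
    calc 256 * p.X ^ 2 * (4 * m) = 1024 * (m * p.X ^ 2) := by ring
      _ ≤ s := hs4
  have ha4 : 1 ≤ a := by omega
  obtain ⟨r, hr⟩ : ∃ r, r + 1 = 2 * a := ⟨2 * a - 1, by omega⟩
  have hr1 : 18 * p.X ^ 2 ≤ r := by omega
  have hr0 : 0 < r := by omega
  have hrodd : Odd r := ⟨a - 1, by omega⟩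
  set y : ℕ := m * r with hy
  have hy1 : y + m = 2 * (m * a) := by
    rw [hy]
    calc m * r + m = m * (r + 1) := by ring
      _ = m * (2 * a) := by rw [hr]
      _ = 2 * (m * a) := by ring
  have ha1' : 4 * (m * a) ≤ s := by rw [← mul_assoc]; exact ha1
  have ha2' : s < 4 * (m * a) + 4 * m := by
    calc s < 4 * m * (a + 1) := ha2
      _ = 4 * (m * a) + 4 * m := by ring
  have hy2 : 2 * y ≤ s := by omega
  have hy3 : s + 4 ≤ 4 * y := by omega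
  set b : ℕ := 2 * y + 1 with hb
  have hbodd : Odd b := ⟨y, rfl⟩
  have hNm : r * b * m = 2 * (y * y) + y := by
    rw [hb, hy]; ring
  have hNm1 : r * b * m ≤ n := by
    rw [hNm]
    have h1 : (2 * y) * (2 * y) ≤ s * s := Nat.mul_le_mul hy2 hy2
    have h2 : s ≤ s * s := Nat.le_mul_self s
    nlinarith
  have hNm2 : n ≤ 16 * (r * b * m) := by
    rw [hNm]
    have h1 : (s + 4) * (s + 4) ≤ (4 * y) * (4 * y) := Nat.mul_le_mul hy3 hy3
    nlinarith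
  have hev2 : Even (r * b * m) := hKev.mul_left _
  obtain ⟨f, hf⟩ : ∃ f, n = r * b * m + 2 * f := by
    obtain ⟨k, hk⟩ := hev
    obtain ⟨l, hl⟩ := hev2
    exact ⟨k - l, by omega⟩
  obtain ⟨W, hWdef⟩ : ∃ W : ℕ, W = Nat.sqrt N + 1 := ⟨_, rfl⟩
  have hW1 : N < W * W := by rw [hWdef]; exact Nat.lt_succ_sqrt N
  have hfW : f ≤ W * W := by omega
  have hdW : N - n ≤ W * W := by omega
  obtain ⟨P, hP1, hP2, hP3, hP4⟩ := stSet p r b f (N - n) W k hp hK hr0 (by omega)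
    (hrodd.mul hbodd) hr1 (by rw [hb, hy]) hfW hdW (by rw [← hf, hndef])
  have hPn : P.card = N := by rw [hP1]; omega
  refine ⟨P, hPn, hP2, ?_, ?_⟩
  · intro x hx z hz hxz
    obtain ⟨h1, h2⟩ := hP3 x hx z hz hxz
    refine ⟨h1, h2.trans ?_⟩
    have h3 : (s : ℝ) ≤ Real.sqrt N := by
      rw [hs]
      refine Real.nat_sqrt_le_real_sqrt.trans (Real.sqrt_le_sqrt ?_)
      exact_mod_cast hkN
    have h4 : 2 * ((m * r : ℕ) : ℝ) ≤ s := by
      rw [← hy]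
      exact_mod_cast hy2
    have h5 : (0 : ℝ) ≤ ((m * r : ℕ) : ℝ) := Nat.cast_nonneg _
    have h6 : ((Nat.sqrt N : ℕ) : ℝ) ≤ Real.sqrt N := Real.nat_sqrt_le_real_sqrt
    have h7 : (W : ℝ) = (Nat.sqrt N : ℕ) + 1 := by rw [hWdef]; push_cast; ring
    have h8 : (1 : ℝ) ≤ Real.sqrt N := by
      apply Real.one_le_sqrt.mpr
      have : 1 ≤ N := by omega
      exact_mod_cast this
    rw [h7]
    linarith
  · have h1 : ((r * b * Fintype.card p.E : ℕ) : ℝ) ≤ ((kE P k).card : ℝ) := by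
      exact_mod_cast hP4
    have h2 : (n : ℝ) ≤ 16 * ((r * b : ℕ) : ℝ) * m := by
      have : (n : ℝ) ≤ ((16 * (r * b * m) : ℕ) : ℝ) := by exact_mod_cast hNm2
      push_cast at this ⊢
      linarith
    have h3 : (0 : ℝ) < 2 ^ G := Real.rpow_pos_of_pos (by norm_num) _
    calc (2 : ℝ) ^ G * n ≤ 2 ^ G * (16 * ((r * b : ℕ) : ℝ) * m) :=
          mul_le_mul_of_nonneg_left h2 h3.le
      _ = 16 * ((r * b : ℕ) : ℝ) * (2 ^ G * m) := by ring
      _ ≤ 16 * ((r * b : ℕ) : ℝ) * (Fintype.card p.E : ℝ) :=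
          mul_le_mul_of_nonneg_left hE (by positivity)
      _ = 16 * ((r * b * Fintype.card p.E : ℕ) : ℝ) := by push_cast; ring
      _ ≤ _ := mul_le_mul_of_nonneg_left h1 (by norm_num)

end Pool.Agent.Work.MP_e17eac_co.DL
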