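import Pool.Agent.Work.MP_e17eac_co.DL.Gen
import Pool.Agent.Work.MP_e17eac_co.DL.Bal

/-!
# Dense point sets with many halving lines: the set built from a pattern
-/

set_option autoImplicit false

namespace Pool.Agent.Work.MP_e17eac_co.DL

open Finset Filter Topology Pool.Agent.Work.MP_e17eac_co.HL Pool.Agent.Work.MP_e17eac_co.NC

theorem stSet : StSet := by
  classical
  intro p r b f d W k hp hK hr hb hN hrX hbm hf hd hk
  have h1 := stBal p r b f d W hp hr hb hN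
  have h2 : ∀ᶠ ε in 𝓝[>] (0 : ℝ), ε < 1 :=
    mem_nhdsWithin_of_mem_nhds (Iio_mem_nhds one_pos)
  obtain ⟨ε, ⟨h3, h4⟩, h5⟩ := ((h1.and h2).and self_mem_nhdsWithin).exists
  have hε : 0 < ε := h5
  set F : Fin (r * b) × p.E → Ix p r b f d × Ix p r b f d :=
    fun a => (Sum.inl (a.1, p.src a.2), Sum.inl (a.1, p.tgt a.2)) with hF
  have hFinj : Function.Injective F := by
    rintro ⟨j, e⟩ ⟨j', e'⟩ h
    simp only [hF, Prod.mk.injEq, Sum.inl.injEq] at h
    obtain ⟨⟨h6, h7⟩, _, h8⟩ := h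
    rw [h6, hp.edge_inj e e' h7 h8]
  have hE : ∀ e ∈ (univ.image F), e.1 ≠ e.2 ∧ (∀ k, k ≠ e.1 → k ≠ e.2 →
      side (zz p r b f d W ε e.1) (zz p r b f d W ε e.2) (zz p r b f d W ε k) ≠ 0) ∧
      (∑ k, sg (side (zz p r b f d W ε e.1) (zz p r b f d W ε e.2) (zz p r b f d W ε k)) = d ∨
        ∑ k, sg (side (zz p r b f d W ε e.1) (zz p r b f d W ε e.2) (zz p r b f d W ε k)) = -d)
      := by
    intro e he
    obtain ⟨⟨j, e⟩, _, rfl⟩ := Finset.mem_image.mp he
    obtain ⟨h6, h7⟩ := h3 j e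
    refine ⟨?_, h6, h7⟩
    intro h
    simp only [hF, Sum.inl.injEq, Prod.mk.injEq] at h
    exact Pat.src_ne_tgt hp e e h.2
  have hasym : ∀ e ∈ (univ.image F), (e.2, e.1) ∉ (univ.image F) := by
    intro e he he'
    obtain ⟨⟨j, e⟩, _, rfl⟩ := Finset.mem_image.mp he
    obtain ⟨⟨j', e'⟩, _, h⟩ := Finset.mem_image.mp he'
    simp only [hF, Sum.inl.injEq, Prod.mk.injEq] at h
    exact Pat.src_ne_tgt hp e' e h.1.2
  have hcard : Fintype.card (Ix p r b f d) = 2 * k + 2 + d := by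
    simp only [Fintype.card_sum, Fintype.card_prod, Fintype.card_fin, Fintype.card_bool]
    rw [← hk]
    ring
  obtain ⟨P, hP1, hP2, hP3, hP4⟩ := stGen (Ix p r b f d) inferInstance (zz p r b f d W ε)
    (univ.image F) (16 * (Fintype.card p.K * r : ℕ) + 6 * W + 2) d k hcard hE hasym
    (fun i j hij => stDist p r b f d W hp hr hb hrX hbm hf hd ε hε h4.le i j hij)
  refine ⟨P, hP1.trans hcard, hP2, ?_, ?_⟩
  · intro x hx y hy hxy
    obtain ⟨h6, h7⟩ := hP3 x hx y hy hxy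
    exact ⟨h6, by linarith⟩
  · refine le_trans (le_of_eq ?_) hP4
    rw [Finset.card_image_of_injective _ hFinj, Finset.card_univ, Fintype.card_prod,
      Fintype.card_fin]

end Pool.Agent.Work.MP_e17eac_co.DL
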